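import Mathlib
import Pool.Agent.Lib.MP_0c5608_co.Defs
import Pool.Agent.Lib.MP_0c5608_co.Init

set_option autoImplicit false

namespace Pool.Agent.Results.MP_0c5608_co.NearlyEquilateralLocked

open Pool.Agent.FatChain

/-- For every ratio `r ≥ 1.0008` there is a chain of five fat links with link length ratio `r`,
all links longer than `2` (and whose straightened configuration is simple), which has a locked
simple configuration. -/
theorem result :
    ∀ r : ℝ, 10008 / 10000 ≤ r →
      ∃ ℓ : Fin 5 → ℝ, (∀ i, 2 < ℓ i) ∧ lengthRatio ℓ = r ∧
        (∃ w : Fin 6 → E3, IsConfig ℓ w ∧ IsSimple w ∧ IsStraight ℓ w) ∧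
        ∃ v : Fin 6 → E3, IsLocked ℓ v := by
  intro r hr
  have hr1 : (1:ℝ) ≤ r := by linarith
  refine ⟨len r, fun i => ?_, ?_, ⟨vstraight r, config_of_straight hr1 (vstraight_straight r),
    vstraight_simple hr1, vstraight_straight r⟩, vinit r, vinit_config hr1, vinit_simple hr1, ?_⟩
  · have h1 := Lm_gt
    have h2 : 2 < r * Lm := by nlinarith
    fin_cases i
    · exact h2
    · exact h1
    · exact h1
    · exact h1
    · exact h2
  · have hL := Lm_pos
    have hle : Lm ≤ r * Lm := by nlinarith
    have hsup : (⨆ i, len r i) = r * Lm := by
      apply le_antisymm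
      · apply ciSup_le
        intro i
        fin_cases i
        · exact le_refl _
        · exact hle
        · exact hle
        · exact hle
        · exact le_refl _
      · exact le_ciSup (f := len r) (Finite.bddAbove_range _) 0
    have hinf : (⨅ i, len r i) = Lm := by
      apply le_antisymm
      · exact ciInf_le (f := len r) (Finite.bddBelow_range _) 1
      · apply le_ciInf
        intro i
        fin_cases i
        · exact hle
        · exact le_refl _
        · exact le_refl _
        · exact le_refl _
        · exact hle
    unfold lengthRatio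
    rw [hsup, hinf, mul_div_assoc, div_self hL.ne', mul_one]
  · rintro ⟨γ, hγ, h0, h1⟩
    obtain ⟨x, y, z, -, hm⟩ := trapped hr hγ ⟨ex, ey, ez, on3_std, by
      rw [h0, misfit_vinit hr1]; norm_num⟩
    exact absurd hm (not_le.2 (misfit_straight hr1 h1 x y z))

end Pool.Agent.Results.MP_0c5608_co.NearlyEquilateralLocked
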